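import Mathlib
import Pool.Agent.H759R2.Kad.Props3
import Pool.Agent.H294R2.Kad2.Dix2

open scoped ComplexOrder InnerProductSpace ComplexConjugate
open Finset

noncomputable section

namespace H759R2.Kad

universe u v

open H294R2.Kad2

namespace A24

theorem flat_num {m L : ℕ} (hm : 0 < m) (hL : 25920 * m ^ 11 ≤ L) {p : ℝ}
    (hp : p ^ 3 ≤ 15 / ((m * L : ℕ) : ℝ)) : p ≤ 1 / (12 * (m : ℝ) ^ 4) := by
  have hm' : (0 : ℝ) < m := by exact_mod_cast hm
  have hL' : 25920 * (m : ℝ) ^ 11 ≤ (L : ℝ) := by exact_mod_cast hL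
  have h1 : 25920 * (m : ℝ) ^ 12 ≤ ((m * L : ℕ) : ℝ) := by
    push_cast
    have h0 := mul_le_mul_of_nonneg_left hL' hm'.le
    have e0 : 25920 * (m : ℝ) ^ 12 = (m : ℝ) * (25920 * (m : ℝ) ^ 11) := by ring
    rw [e0]
    exact h0
  have h2 : (15 : ℝ) / ((m * L : ℕ) : ℝ) ≤ 15 / (25920 * (m : ℝ) ^ 12) :=
    div_le_div_of_nonneg_left (by norm_num) (by positivity) h1
  have h3 : (15 : ℝ) / (25920 * (m : ℝ) ^ 12) = (1 / (12 * (m : ℝ) ^ 4)) ^ 3 := by
    field_simp
    norm_num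
  have h4 : p ^ 3 ≤ (1 / (12 * (m : ℝ) ^ 4)) ^ 3 := by
    rw [← h3]
    exact hp.trans h2
  exact (Odd.strictMono_pow (by decide : Odd 3)).le_iff_le.1 h4

/-- Scalar unitary matrices act with norm at most one. -/
theorem norm_amp_tens_one {A : Type u} [CStarAlgebra A] {H : Type v} [NormedAddCommGroup H]
    [InnerProductSpace ℂ H] {ι : Type} [Fintype ι] [DecidableEq ι] {w : A →ₗ[ℂ] (H →L[ℂ] H)}
    (hw : w 1 = 1) {s : Matrix ι ι ℂ} (hs : s ∈ unitary (Matrix ι ι ℂ)) :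
    ‖amp w ι (tens s 1)‖ ≤ 1 := by
  refine ContinuousLinearMap.opNorm_le_bound _ zero_le_one fun v => ?_
  have h1 : ∀ i, amp w ι (tens s 1) v i = ∑ j, s i j • v j := by
    intro i
    rw [amp_apply]
    refine Finset.sum_congr rfl fun j _ => ?_
    have : tens s (1 : A) i j = s i j • (1 : A) := rfl
    rw [this, map_smul, hw]
    rfl
  have h2 : ‖amp w ι (tens s 1) v‖ ^ 2 ≤ (1 * ‖v‖) ^ 2 := by
    rw [PiLp.norm_sq_eq_of_L2, one_mul, PiLp.norm_sq_eq_of_L2 _ v, ← sum_scal hs (fun j => v j)]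
    refine Finset.sum_le_sum fun i _ => ?_
    rw [h1 i]
  exact le_of_sq_le_sq h2 (by positivity)

end A24

theorem prove3_main (h1 : K_unit.{u, v}) (h2 : K_flat.{u}) : K_main.{u, v} := by
  intro B _ _ _ K _ _ _ w τ hw hτ hD hO γ hγ hwγ L m hm hL hLvl
  have hγ0 : (0 : ℝ) ≤ γ := zero_le_one.trans hγ
  have hLpos : 0 < L := lt_of_lt_of_le (by positivity) hL
  have hn : 0 < m * L := Nat.mul_pos hm hLpos
  have hC : (0 : ℝ) ≤ 108 * γ ^ 7 := by positivity
  have key : ∀ x ∈ unitary (CStarMatrix (Fin (m * L)) (Fin (m * L)) B),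
      ‖amp w (Fin (m * L)) x‖ ≤ 108 * γ ^ 7 := by
    intro x hx
    obtain ⟨t, ht, hflat⟩ := h2 B τ hτ (m * L) hn x hx
    have hT : tens t (1 : B) ∈ unitary (CStarMatrix (Fin (m * L)) (Fin (m * L)) B) :=
      Block.tens_unitary ht (one_mem _)
    have hy : x * tens t (1 : B) ∈ unitary (CStarMatrix (Fin (m * L)) (Fin (m * L)) B) :=
      mul_mem hx hT
    have hy1 := h1 B K w τ hw hτ hD hO γ hγ hwγ L m hm hL hLvl (x * tens t (1 : B)) hy
      (fun i j => A24.flat_num hm hL (hflat i j))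
    have e1 : x = (x * tens t (1 : B)) * tens (star t) (1 : B) := by
      have e2 : star (tens t (1 : B)) = tens (star t) (1 : B) := by
        rw [star_tens, star_one]
      rw [← e2, mul_assoc, hT.2, mul_one]
    have e3 : amp w (Fin (m * L)) x =
        amp w (Fin (m * L)) (x * tens t (1 : B)) * amp w (Fin (m * L)) (tens (star t) (1 : B)) := by
      rw [← (amp_isHom hw).mul, ← e1]
    have e4 : ‖amp w (Fin (m * L)) (tens (star t) (1 : B))‖ ≤ 1 :=
      A24.norm_amp_tens_one hw.one (Unitary.star_mem ht)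
    calc ‖amp w (Fin (m * L)) x‖ = ‖amp w (Fin (m * L)) (x * tens t (1 : B)) *
          amp w (Fin (m * L)) (tens (star t) (1 : B))‖ := by rw [← e3]
      _ ≤ ‖amp w (Fin (m * L)) (x * tens t (1 : B))‖ *
          ‖amp w (Fin (m * L)) (tens (star t) (1 : B))‖ := norm_mul_le _ _
      _ ≤ 108 * γ ^ 7 * 1 := mul_le_mul hy1 e4 (norm_nonneg _) hC
      _ = 108 * γ ^ 7 := mul_one _
  intro X
  obtain ⟨u, c, hX, hc⟩ := CStarAlgebra.exists_sum_four_unitary X
  calc ‖amp w (Fin (m * L)) X‖ = ‖∑ i, c i • amp w (Fin (m * L))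
        (u i : CStarMatrix (Fin (m * L)) (Fin (m * L)) B)‖ := by
        conv_lhs => rw [hX]
        rw [map_sum]
        simp_rw [map_smul]
    _ ≤ ∑ i, ‖c i • amp w (Fin (m * L))
        (u i : CStarMatrix (Fin (m * L)) (Fin (m * L)) B)‖ := norm_sum_le _ _
    _ ≤ ∑ i : Fin 4, ‖X‖ / 2 * (108 * γ ^ 7) := by
        refine Finset.sum_le_sum fun i _ => ?_
        rw [norm_smul]
        exact mul_le_mul (hc i) (key _ (u i).2) (norm_nonneg _) (by positivity)
    _ = 216 * γ ^ 7 * ‖X‖ := by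
        simp
        ring

end H759R2.Kad
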